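import Mathlib
import Pool.Agent.H24.MR.InterfaceMR

/-!
Basic facts on the Dirichlet polynomials `FX` and `QP` for the module [FS] of project T1
on `MP_c59857_nt`.
-/

set_option autoImplicit false

open Finset Filter MeasureTheory

namespace Pool.Agent.H14.MR

open Pool.Agent.H24.MR

lemma norm_nit (n : ℕ) (t : ℝ) : ‖nit n t‖ = 1 := by
  unfold nit
  have : -((t * Real.log n : ℝ) : ℂ) * Complex.I = ((-(t * Real.log n) : ℝ) : ℂ) * Complex.I := by
    push_cast; ring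
  rw [this, Complex.norm_exp_ofReal_mul_I]

lemma continuous_nit (n : ℕ) : Continuous (nit n) := by
  unfold nit
  fun_prop

lemma continuous_FX (W b : ℕ) (X : ℝ) : Continuous (FX W b X) := by
  unfold FX
  refine continuous_finsetSum _ (fun n _ => ?_)
  exact continuous_const.mul (continuous_nit n)

lemma continuous_QP (P : Finset ℕ) : Continuous (QP P) := by
  unfold QP
  refine continuous_finsetSum _ (fun n _ => ?_)
  exact continuous_const.mul (continuous_nit n)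

lemma norm_FX_le (W b : ℕ) (X t : ℝ) : ‖FX W b X t‖ ≤ ∑ n ∈ Finset.Icc 1 ⌊X * Real.exp 1⌋₊,
    ‖((fW W b n / n * tent (Real.log n - Real.log X) : ℝ) : ℂ)‖ := by
  unfold FX
  refine (norm_sum_le _ _).trans (Finset.sum_le_sum (fun n _ => ?_))
  rw [norm_mul, norm_nit, mul_one]

lemma norm_QP_le (P : Finset ℕ) (t : ℝ) : ‖QP P t‖ ≤ ∑ p ∈ P, (1 : ℝ) / p := by
  unfold QP
  refine (norm_sum_le _ _).trans (Finset.sum_le_sum (fun n _ => ?_))
  rw [norm_mul, norm_nit, mul_one]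
  simp

lemma tent_nonneg (u : ℝ) : 0 ≤ tent u := le_max_left _ _

lemma tent_le_one (u : ℝ) : tent u ≤ 1 := by
  unfold tent
  refine max_le (by norm_num) ?_
  have := abs_nonneg u
  linarith

lemma tent_eq_zero {u : ℝ} (h : u ≤ -1) : tent u = 0 := by
  unfold tent
  refine max_eq_left ?_
  have := neg_le_abs u
  linarith

lemma abs_lam (n : ℕ) : |lam n| = 1 := by
  unfold lam
  rw [abs_pow, abs_neg, abs_one, one_pow]

lemma abs_fW_le (W b n : ℕ) : |fW W b n| ≤ 1 := by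
  unfold fW
  split_ifs
  · rw [abs_lam]
  · simp

/-- The coefficients of `FX`. -/
noncomputable def coef (W b : ℕ) (M : ℝ) (n : ℕ) : ℂ :=
  ((fW W b n / n * tent (Real.log n - Real.log M) : ℝ) : ℂ)

lemma norm_coef_le (W b : ℕ) (M : ℝ) (n : ℕ) : ‖coef W b M n‖ ≤ 1 / n := by
  unfold coef
  rw [Complex.norm_real, Real.norm_eq_abs, abs_mul, abs_div, Nat.abs_cast,
    abs_of_nonneg (tent_nonneg _)]
  calc |fW W b n| / n * tent (Real.log n - Real.log M)
      ≤ 1 / n * 1 := by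
        refine mul_le_mul ?_ (tent_le_one _) (tent_nonneg _) (by positivity)
        exact div_le_div_of_nonneg_right (abs_fW_le _ _ _) (by positivity)
    _ = 1 / n := mul_one _

lemma FX_eq (W b : ℕ) {M : ℝ} (hM : 0 < M) (t : ℝ) :
    FX W b M t = ∑ n ∈ Finset.Icc ⌈M / Real.exp 1⌉₊ ⌊M * Real.exp 1⌋₊, coef W b M n * nit n t := by
  unfold FX
  symm
  refine Finset.sum_subset_zero_on_sdiff ?_ ?_ (fun n _ => rfl)
  · intro n hn
    rw [Finset.mem_Icc] at hn ⊢
    refine ⟨?_, hn.2⟩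
    have : 0 < ⌈M / Real.exp 1⌉₊ := Nat.ceil_pos.mpr (by positivity)
    omega
  · intro n hn
    rw [Finset.mem_sdiff, Finset.mem_Icc, Finset.mem_Icc] at hn
    obtain ⟨⟨h1, h2⟩, h3⟩ := hn
    have h4 : n < ⌈M / Real.exp 1⌉₊ := by
      by_contra h
      exact h3 ⟨not_lt.mp h, h2⟩
    have h5 : (n : ℝ) < M / Real.exp 1 := Nat.lt_ceil.mp h4
    have h6 : Real.log n ≤ Real.log M - 1 := by
      have h7 : (0 : ℝ) < n := by exact_mod_cast h1
      have := Real.log_le_log h7 h5.le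
      rwa [Real.log_div hM.ne' (Real.exp_pos 1).ne', Real.log_exp] at this
    rw [tent_eq_zero (by linarith)]
    simp

/-- The maximum of a continuous function on unit intervals. -/
lemma exists_max (f : ℝ → ℝ) (hf : Continuous f) :
    ∃ t : ℤ → ℝ, ∀ k : ℤ, t k ∈ Set.Icc (k : ℝ) (k + 1) ∧
      ∀ s ∈ Set.Icc (k : ℝ) (k + 1), f s ≤ f (t k) := by
  have h : ∀ k : ℤ, ∃ t ∈ Set.Icc (k : ℝ) (k + 1), ∀ s ∈ Set.Icc (k : ℝ) (k + 1), f s ≤ f t := by
    intro k
    obtain ⟨t, ht, hm⟩ := (isCompact_Icc (a := (k : ℝ)) (b := (k : ℝ) + 1)).exists_isMaxOn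
      ⟨(k : ℝ), by simp⟩ hf.continuousOn
    exact ⟨t, ht, fun s hs => hm hs⟩
  choose t ht1 ht2 using h
  exact ⟨t, fun k => ⟨ht1 k, ht2 k⟩⟩

/-- Passing from separated points to one point in each unit interval. -/
lemma sum_points (g : ℝ → ℝ) (t : ℤ → ℝ) (ht : ∀ k : ℤ, t k ∈ Set.Icc (k : ℝ) (k + 1))
    (S : Finset ℤ) (X B D : ℝ) (hX : 1 ≤ X) (hS : ∀ k ∈ S, |(k : ℝ)| ≤ X)
    (hB : (S.card : ℝ) ≤ B)
    (h : ∀ S' : Finset ℝ, (∀ s ∈ S', |s| ≤ 2 * X) →
      (∀ s ∈ S', ∀ u ∈ S', s ≠ u → 1 ≤ |s - u|) → (S'.card : ℝ) ≤ B → ∑ s ∈ S', g s ≤ D) :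
    ∑ k ∈ S, g (t k) ≤ 2 * D := by
  have key : ∀ T : Finset ℤ, T ⊆ S → (∀ j ∈ T, ∀ k ∈ T, j ≠ k → 2 ≤ |j - k|) →
      ∑ k ∈ T, g (t k) ≤ D := by
    intro T hT hsep
    have hdist : ∀ j ∈ T, ∀ k ∈ T, j ≠ k → 1 ≤ |t j - t k| := by
      intro j hj k hk hjk
      have h1 := hsep j hj k hk hjk
      have hj' := ht j
      have hk' := ht k
      rw [Set.mem_Icc] at hj' hk'
      rcases le_or_gt 0 (j - k) with h0 | h0
      · rw [abs_of_nonneg h0] at h1
        have h1' : (2 : ℝ) ≤ j - k := by exact_mod_cast h1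
        refine le_trans ?_ (le_abs_self _)
        linarith [hj'.1, hk'.2]
      · rw [abs_of_neg h0] at h1
        have h1' : (2 : ℝ) ≤ -(j - k) := by exact_mod_cast h1
        refine le_trans ?_ (neg_le_abs _)
        linarith [hj'.2, hk'.1]
    have hinj : Set.InjOn t T := by
      intro j hj k hk hjk
      by_contra hne
      have := hdist j hj k hk hne
      rw [hjk, sub_self, abs_zero] at this
      linarith
    have h2 := h (T.image t) ?_ ?_ ?_
    · rwa [Finset.sum_image hinj] at h2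
    · intro s hs
      rw [Finset.mem_image] at hs
      obtain ⟨k, hk, rfl⟩ := hs
      have h3 := hS k (hT hk)
      have h4 := ht k
      rw [Set.mem_Icc] at h4
      rw [abs_le] at h3 ⊢
      constructor <;> linarith [h3.1, h3.2, h4.1, h4.2]
    · intro s hs u hu hsu
      rw [Finset.mem_image] at hs hu
      obtain ⟨j, hj, rfl⟩ := hs
      obtain ⟨k, hk, rfl⟩ := hu
      exact hdist j hj k hk (fun h => hsu (by rw [h]))
    · refine le_trans ?_ hB
      exact_mod_cast (Finset.card_image_le).trans (Finset.card_le_card hT)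
  have h1 := key (S.filter (fun k => k % 2 = 0)) (Finset.filter_subset _ _) (by
    intro j hj k hk hjk
    rw [Finset.mem_filter] at hj hk
    have h1 : (j - k) % 2 = 0 := by omega
    rcases le_or_gt 0 (j - k) with h0 | h0
    · rw [abs_of_nonneg h0]; omega
    · rw [abs_of_neg h0]; omega)
  have h2 := key (S.filter (fun k => ¬ (k % 2 = 0))) (Finset.filter_subset _ _) (by
    intro j hj k hk hjk
    rw [Finset.mem_filter] at hj hk
    have h1 : (j - k) % 2 = 0 := by omega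
    rcases le_or_gt 0 (j - k) with h0 | h0
    · rw [abs_of_nonneg h0]; omega
    · rw [abs_of_neg h0]; omega)
  rw [← Finset.sum_filter_add_sum_filter_not S (fun k => k % 2 = 0)]
  linarith

/-- Iterating the weak Mertens bound. -/
lemma mertens_iter (C W : ℕ) (hC : 1 ≤ C) (c' x₀ : ℝ)
    (h : ∀ x : ℝ, x₀ ≤ x → c' ≤
      ∑ p ∈ (Finset.Ioc ⌊x⌋₊ ⌊x ^ C⌋₊).filter (fun p => p.Prime ∧ p ≡ 1 [MOD W]), (1 : ℝ) / p)
    (y : ℝ) (hy : x₀ ≤ y) (hy1 : 1 ≤ y) (J : ℕ) :
    J * c' ≤ ∑ p ∈ (Finset.Ioc ⌊y⌋₊ ⌊y ^ (C ^ J)⌋₊).filter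
      (fun p => p.Prime ∧ p ≡ 1 [MOD W]), (1 : ℝ) / p := by
  induction J with
  | zero => simp
  | succ J ih =>
    have h1 : y ≤ y ^ (C ^ J) := le_self_pow₀ hy1 (by positivity)
    have h2 : y ^ (C ^ J) ≤ y ^ (C ^ (J + 1)) :=
      pow_le_pow_right₀ hy1 (Nat.pow_le_pow_right hC (by omega))
    have h3 := h (y ^ (C ^ J)) (hy.trans h1)
    rw [← pow_mul, ← pow_succ] at h3
    rw [Finset.sum_filter] at ih h3 ⊢
    rw [← Finset.sum_Ioc_consecutive _ (Nat.floor_mono h1) (Nat.floor_mono h2)]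
    push_cast
    linarith

/-- Chebyshev bound. -/
lemma cheb (P : Finset ℕ) (V : ℝ) (hV : 0 < V)
    (hP : ∀ p ∈ P, p.Prime ∧ Real.exp V ≤ p ∧ (p : ℝ) ≤ Real.exp (V + 1)) :
    ∑ p ∈ P, (1 : ℝ) / p ≤ 4 / V := by
  set n := ⌊Real.exp (V + 1)⌋₊ with hn
  have h1 : ∏ p ∈ P, (p : ℝ) ≤ (4 : ℝ) ^ n := by
    have h2 : ∏ p ∈ P, p ≤ primorial n := by
      unfold primorial
      refine Finset.prod_le_prod_of_subset_of_one_le' ?_ ?_
      · intro p hp
        rw [Finset.mem_filter, Finset.mem_range]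
        refine ⟨Nat.lt_succ_of_le (Nat.le_floor (hP p hp).2.2), (hP p hp).1⟩
      · intro i hi _
        rw [Finset.mem_filter] at hi
        exact hi.2.one_lt.le
    have h3 : ∏ p ∈ P, p ≤ 4 ^ n := h2.trans (primorial_le_four_pow n)
    have h4 : ((∏ p ∈ P, p : ℕ) : ℝ) ≤ ((4 ^ n : ℕ) : ℝ) := Nat.cast_le.mpr h3
    rw [Nat.cast_prod, Nat.cast_pow] at h4
    exact_mod_cast h4
  have h2 : (P.card : ℝ) * V ≤ n * Real.log 4 := by
    have h3 : ∀ p ∈ P, (0 : ℝ) < p := fun p hp => by exact_mod_cast (hP p hp).1.pos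
    have h4 := Real.log_le_log (Finset.prod_pos h3) h1
    rw [Real.log_prod (fun p hp => (h3 p hp).ne'), Real.log_pow] at h4
    refine le_trans ?_ h4
    rw [← nsmul_eq_mul]
    refine Finset.card_nsmul_le_sum _ _ _ (fun p hp => ?_)
    exact (Real.le_log_iff_exp_le (h3 p hp)).mpr (hP p hp).2.1
  have h3 : (n : ℝ) ≤ Real.exp (V + 1) := Nat.floor_le (Real.exp_pos _).le
  have hlog4 : Real.log 4 ≤ 1.3863 := by
    have : (4 : ℝ) = 2 ^ 2 := by norm_num
    rw [this, Real.log_pow]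
    have := Real.log_two_lt_d9
    push_cast
    linarith
  have hlog4' : 0 ≤ Real.log 4 := Real.log_nonneg (by norm_num)
  have hcard : (P.card : ℝ) ≤ 4 * Real.exp V / V := by
    rw [le_div_iff₀ hV]
    refine h2.trans ?_
    have he : Real.exp (V + 1) = Real.exp V * Real.exp 1 := Real.exp_add _ _
    have he1 := Real.exp_one_lt_d9
    have hV' := Real.exp_pos V
    calc (n : ℝ) * Real.log 4 ≤ Real.exp V * Real.exp 1 * 1.3863 := by
          rw [← he]
          exact mul_le_mul h3 hlog4 hlog4' (Real.exp_pos _).le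
      _ ≤ Real.exp V * 2.7182818286 * 1.3863 := by gcongr
      _ ≤ 4 * Real.exp V := by linarith
  calc ∑ p ∈ P, (1 : ℝ) / p ≤ ∑ _p ∈ P, 1 / Real.exp V := by
        refine Finset.sum_le_sum (fun p hp => ?_)
        exact one_div_le_one_div_of_le (Real.exp_pos _) (hP p hp).2.1
    _ = P.card * (1 / Real.exp V) := by rw [Finset.sum_const, nsmul_eq_mul]
    _ ≤ (4 * Real.exp V / V) * (1 / Real.exp V) := by gcongr
    _ = 4 / V := by
        have := (Real.exp_pos V).ne'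
        field_simp

end Pool.Agent.H14.MR
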