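import Mathlib
import Pool.Agent.H14.MR.FSBasic

/-!
The bound for one cell in the module [FS] of project T1 on `MP_c59857_nt`.
-/

set_option autoImplicit false

open Finset Filter MeasureTheory

namespace Pool.Agent.H14.MR

open Pool.Agent.H24.MR

lemma split_bound (q r : ℤ → ℝ) (hq0 : ∀ k, 0 ≤ q k) (hr0 : ∀ k, 0 ≤ r k) (S : Finset ℤ)
    (θ ε' D₁ D₂ : ℝ)
    (hr : ∑ k ∈ S, r k ^ 2 ≤ D₁) (hq : ∑ k ∈ S.filter (fun k => θ < q k), q k ^ 2 ≤ D₂)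
    (hrs : ∀ k ∈ S, r k ≤ ε') :
    ∑ k ∈ S, q k ^ 2 * r k ^ 2 ≤ θ ^ 2 * D₁ + ε' ^ 2 * D₂ := by
  rw [← Finset.sum_filter_add_sum_filter_not S (fun k => θ < q k), add_comm]
  refine add_le_add ?_ ?_
  · calc ∑ k ∈ S.filter (fun k => ¬ θ < q k), q k ^ 2 * r k ^ 2
        ≤ ∑ k ∈ S.filter (fun k => ¬ θ < q k), θ ^ 2 * r k ^ 2 := by
          refine Finset.sum_le_sum (fun k hk => ?_)
          rw [Finset.mem_filter, not_lt] at hk
          exact mul_le_mul_of_nonneg_right (pow_le_pow_left₀ (hq0 k) hk.2 2) (by positivity)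
      _ ≤ ∑ k ∈ S, θ ^ 2 * r k ^ 2 :=
          Finset.sum_le_sum_of_subset_of_nonneg (Finset.filter_subset _ _)
            (fun _ _ _ => by positivity)
      _ = θ ^ 2 * ∑ k ∈ S, r k ^ 2 := by rw [Finset.mul_sum]
      _ ≤ θ ^ 2 * D₁ := mul_le_mul_of_nonneg_left hr (by positivity)
  · calc ∑ k ∈ S.filter (fun k => θ < q k), q k ^ 2 * r k ^ 2
        ≤ ∑ k ∈ S.filter (fun k => θ < q k), ε' ^ 2 * q k ^ 2 := by
          refine Finset.sum_le_sum (fun k hk => ?_)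
          rw [Finset.mem_filter] at hk
          rw [mul_comm]
          exact mul_le_mul_of_nonneg_right (pow_le_pow_left₀ (hr0 k) (hrs k hk.1) 2)
            (by positivity)
      _ = ε' ^ 2 * ∑ k ∈ S.filter (fun k => θ < q k), q k ^ 2 := by rw [Finset.mul_sum]
      _ ≤ ε' ^ 2 * D₂ := mul_le_mul_of_nonneg_left hq (by positivity)

lemma cell_total (W b H l v : ℕ) (CL CH CP δ κ ε' c1 X : ℝ) (Pv : Finset ℕ) (S : Finset ℤ)
    (hX4 : 4 ≤ X) (hH : 2 ≤ H) (hκ : 0 < κ) (hc1 : 0 < c1) (hl1 : 1 ≤ l) (hl : 2 / c1 ≤ l)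
    (hCL : 0 < CL)
    (hX1 : 2 ≤ c1 * H * Real.log X) (hX2 : 8 ≤ c1 * Real.log X)
    (hpoly : CL * (l.factorial : ℝ) ^ 2 * (l * (Real.log X + 1)) ^ 2 *
      (H * Real.log X / κ) ^ (2 * l) ≤ X ^ δ)
    (hv1 : c1 * H * Real.log X ≤ v + 1) (hv2 : (v : ℝ) ≤ H * Real.log X / 25)
    (hPv : ∀ p ∈ Pv, p.Prime ∧ Real.exp ((v : ℝ) / H) ≤ p ∧ (p : ℝ) ≤ Real.exp ((v : ℝ) / H + 1))
    (hScard : (S.card : ℝ) ≤ X ^ (11 / 25 : ℝ)) (hS : ∀ k ∈ S, |(k : ℝ)| ≤ X)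
    (hLV : ∀ (P : Finset ℕ) (V X lam₀ : ℝ) (l : ℕ) (S : Finset ℤ), 0 ≤ V → 4 ≤ X →
      (∀ p ∈ P, p.Prime ∧ Real.exp V ≤ p ∧ (p : ℝ) ≤ Real.exp (V + 1)) →
      ∑ p ∈ P, (1 : ℝ) / p ≤ 1 → X ≤ Real.exp (l * V) → 0 < lam₀ → 1 ≤ l →
      (∀ j ∈ S, |(j : ℝ)| ≤ 4 * X ∧ ∃ t ∈ Set.Icc (j : ℝ) (j + 1), lam₀ ≤ ‖QP P t‖) →
      (S.card : ℝ) ≤ CL * (l.factorial : ℝ) ^ 2 * (l * (V + 1)) ^ 2 * lam₀⁻¹ ^ (2 * l))
    (hHM : ∀ M : ℝ, X ^ (24 / 25 : ℝ) ≤ M → M ≤ X →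
      ∀ S : Finset ℝ, (∀ s ∈ S, |s| ≤ 2 * X) → (∀ s ∈ S, ∀ t ∈ S, s ≠ t → 1 ≤ |s - t|) →
      (S.card : ℝ) ≤ X ^ (9 / 20 : ℝ) → ∀ a : ℕ → ℂ, (∀ n, ‖a n‖ ≤ 1 / n) →
      ∑ t ∈ S, ‖∑ n ∈ Finset.Icc ⌈M / Real.exp 1⌉₊ ⌊M * Real.exp 1⌋₊, a n * nit n t‖ ^ 2 ≤ CH)
    (hPH : ∀ V : ℝ, c1 / 2 * Real.log X ≤ V → V ≤ Real.log X →
      ∀ S : Finset ℝ, (∀ s ∈ S, |s| ≤ 2 * X) → (∀ s ∈ S, ∀ t ∈ S, s ≠ t → 1 ≤ |s - t|) →
      (S.card : ℝ) ≤ X ^ δ →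
      ∀ (P : Finset ℕ) (z : ℕ → ℂ),
      (∀ p ∈ P, p.Prime ∧ Real.exp V ≤ p ∧ (p : ℝ) ≤ Real.exp (V + 1)) →
      (∀ p, ‖z p‖ ≤ 1) →
      ∑ t ∈ S, ‖∑ p ∈ P, z p / p * nit p t‖ ^ 2 ≤ CP / V ^ 2)
    (hSB : ∀ t M : ℝ, |t| ≤ 2 * X → X ^ (1 / 2 : ℝ) ≤ M → M ≤ X → ‖FX W b M t‖ ≤ ε')
    (s t : ℤ → ℝ) (hs : ∀ k : ℤ, s k ∈ Set.Icc (k : ℝ) (k + 1))
    (ht : ∀ k : ℤ, t k ∈ Set.Icc (k : ℝ) (k + 1)) :
    ∑ k ∈ S, ‖QP Pv (s k)‖ ^ 2 * ‖FX W b (X * Real.exp (-(v : ℝ) / H)) (t k)‖ ^ 2 ≤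
      (2 * κ ^ 2 * CH + 2 * CP * H ^ 2 * ε' ^ 2) / v ^ 2 := by
  have hHpos : (0 : ℝ) < H := by
    have : 0 < H := by omega
    exact_mod_cast this
  have hX0 : 0 < X := by linarith
  have hX1' : 1 ≤ X := by linarith
  have hlog : 0 < Real.log X := Real.log_pos (by linarith)
  set V : ℝ := (v : ℝ) / H with hVdef
  have hvV : (v : ℝ) = H * V := by
    rw [hVdef]; field_simp
  have hV1 : c1 / 2 * Real.log X ≤ V := by
    rw [hVdef, le_div_iff₀ hHpos]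
    nlinarith
  have hV4 : 4 ≤ V := by linarith
  have hV2 : V ≤ Real.log X / 25 := by
    rw [hVdef, div_le_iff₀ hHpos]
    linarith
  have hV3 : V ≤ Real.log X := by linarith
  have hvpos : (0 : ℝ) < v := by rw [hvV]; positivity
  set M : ℝ := X * Real.exp (-(v : ℝ) / H) with hM
  have hMV : M = X * Real.exp (-V) := by
    rw [hM, hVdef, neg_div]
  have hMle : M ≤ X := by
    rw [hMV]
    have : Real.exp (-V) ≤ 1 := Real.exp_le_one_iff.mpr (by linarith)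
    nlinarith
  have hMge : X ^ (24 / 25 : ℝ) ≤ M := by
    rw [hMV, Real.rpow_def_of_pos hX0]
    nth_rewrite 2 [← Real.exp_log hX0]
    rw [← Real.exp_add]
    exact Real.exp_le_exp.mpr (by linarith)
  have hMge' : X ^ (1 / 2 : ℝ) ≤ M :=
    (Real.rpow_le_rpow_of_exponent_le hX1' (by norm_num)).trans hMge
  have hMpos : 0 < M := by rw [hMV]; positivity
  have hsumPv : ∑ p ∈ Pv, (1 : ℝ) / p ≤ 1 := by
    refine (cheb Pv V (by linarith) hPv).trans ?_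
    rw [div_le_one (by linarith)]
    exact hV4
  -- the Halasz-Montgomery part
  have h1 : ∑ k ∈ S, ‖FX W b M (t k)‖ ^ 2 ≤ 2 * CH := by
    refine sum_points (fun u => ‖FX W b M u‖ ^ 2) t ht S X (X ^ (9 / 20 : ℝ)) CH hX1' hS ?_ ?_
    · exact hScard.trans (Real.rpow_le_rpow_of_exponent_le hX1' (by norm_num))
    · intro S' h1 h2 h3
      have := hHM M hMge hMle S' h1 h2 h3 (coef W b M) (norm_coef_le W b M)
      refine le_trans (le_of_eq ?_) this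
      refine Finset.sum_congr rfl (fun u _ => ?_)
      rw [FX_eq W b hMpos]
  -- the cardinality of the set of large values
  have hcard : ((S.filter (fun k => κ / v < ‖QP Pv (s k)‖)).card : ℝ) ≤ X ^ δ := by
    have h2 := hLV Pv V X (κ / v) l (S.filter (fun k => κ / v < ‖QP Pv (s k)‖)) (by linarith)
      hX4 hPv hsumPv ?_ (by positivity) hl1 ?_
    · refine h2.trans (le_trans ?_ hpoly)
      have h3 : (κ / v)⁻¹ ≤ H * Real.log X / κ := by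
        rw [inv_div]
        refine div_le_div_of_nonneg_right ?_ hκ.le
        rw [hvV]
        exact mul_le_mul_of_nonneg_left hV3 hHpos.le
      have h4 : (0 : ℝ) ≤ (κ / v)⁻¹ := by positivity
      have h5 : (l * (V + 1)) ^ 2 ≤ (l * (Real.log X + 1)) ^ 2 := by
        refine pow_le_pow_left₀ (by positivity) ?_ 2
        exact mul_le_mul_of_nonneg_left (by linarith) (by positivity)
      have h6 : (κ / v)⁻¹ ^ (2 * l) ≤ (H * Real.log X / κ) ^ (2 * l) := pow_le_pow_left₀ h4 h3 _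
      refine mul_le_mul ?_ h6 (by positivity) (by positivity)
      exact mul_le_mul_of_nonneg_left h5 (by positivity)
    · rw [← Real.log_le_iff_le_exp hX0]
      have h3 : 1 ≤ (l : ℝ) * (c1 / 2) := by
        rw [div_le_iff₀ hc1] at hl
        linarith
      calc Real.log X ≤ (l * (c1 / 2)) * Real.log X := by nlinarith
        _ = l * (c1 / 2 * Real.log X) := by ring
        _ ≤ l * V := mul_le_mul_of_nonneg_left hV1 (by positivity)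
    · intro j hj
      rw [Finset.mem_filter] at hj
      refine ⟨(hS j hj.1).trans (by linarith), s j, hs j, hj.2.le⟩
  have h2 : ∑ k ∈ S.filter (fun k => κ / v < ‖QP Pv (s k)‖), ‖QP Pv (s k)‖ ^ 2 ≤
      2 * (CP / V ^ 2) := by
    refine sum_points (fun u => ‖QP Pv u‖ ^ 2) s hs _ X (X ^ δ) (CP / V ^ 2) hX1'
      (fun k hk => hS k (Finset.mem_filter.mp hk).1) hcard ?_
    intro S' h1 h2 h3
    exact hPH V hV1 hV3 S' h1 h2 h3 Pv (fun _ => 1) hPv (by simp)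
  have h3 := split_bound (fun k => ‖QP Pv (s k)‖) (fun k => ‖FX W b M (t k)‖)
    (fun _ => norm_nonneg _) (fun _ => norm_nonneg _) S (κ / v) ε' (2 * CH) (2 * (CP / V ^ 2))
    h1 h2 ?_
  · refine h3.trans (le_of_eq ?_)
    rw [hvV]
    have : V ≠ 0 := by linarith
    field_simp
  · intro k hk
    refine hSB (t k) M ?_ hMge' hMle
    have h3 := hS k hk
    have h4 := ht k
    rw [Set.mem_Icc] at h4
    rw [abs_le] at h3 ⊢
    constructor <;> linarith [h3.1, h3.2, h4.1, h4.2]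

end Pool.Agent.H14.MR
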