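import Mathlib
import Pool.Agent.H14.MR.FSCell

/-!
Integrals over unit intervals for the module [FS] of project T1 on `MP_c59857_nt`.
-/

set_option autoImplicit false

open Finset Filter MeasureTheory

namespace Pool.Agent.H14.MR

open Pool.Agent.H24.MR

lemma polylog_le (A D κ : ℝ) (l : ℕ) (hA : 0 ≤ A) (hD : 0 ≤ D) (hκ : 0 < κ) {δ : ℝ} (hδ : 0 < δ) :
    ∀ᶠ X : ℝ in atTop, A * (l * (Real.log X + 1)) ^ 2 * (D * Real.log X / κ) ^ (2 * l) ≤ X ^ δ := by
  set K : ℝ := A * (l ^ 2 * 4) * (D / κ) ^ (2 * l) + 1 with hK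
  have hK0 : 0 ≤ A * (l ^ 2 * 4) * (D / κ) ^ (2 * l) := by positivity
  have hKpos : 0 < K := by positivity
  have h := isLittleO_log_rpow_rpow_atTop ((2 * l + 2 : ℕ) : ℝ) hδ
  have h1 := h.def (c := 1 / K) (by positivity)
  filter_upwards [h1, Real.tendsto_log_atTop.eventually_ge_atTop 1, eventually_ge_atTop 1]
    with X hX hlog hX1
  rw [Real.rpow_natCast, Real.norm_eq_abs, Real.norm_eq_abs, abs_of_nonneg (by positivity),
    abs_of_nonneg (by positivity), one_div, inv_mul_eq_div, le_div_iff₀ hKpos] at hX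
  refine le_trans ?_ hX
  calc A * (l * (Real.log X + 1)) ^ 2 * (D * Real.log X / κ) ^ (2 * l)
      ≤ A * (l * (2 * Real.log X)) ^ 2 * (D * Real.log X / κ) ^ (2 * l) := by
        have : (l * (Real.log X + 1)) ^ 2 ≤ ((l : ℝ) * (2 * Real.log X)) ^ 2 := by
          refine pow_le_pow_left₀ (by positivity) ?_ 2
          exact mul_le_mul_of_nonneg_left (by linarith) (by positivity)
        refine mul_le_mul_of_nonneg_right (mul_le_mul_of_nonneg_left this hA) (by positivity)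
    _ = (A * (l ^ 2 * 4) * (D / κ) ^ (2 * l)) * Real.log X ^ (2 * l + 2) := by
        rw [mul_div_right_comm, mul_pow (D / κ), pow_add]
        ring
    _ ≤ K * Real.log X ^ (2 * l + 2) := by
        refine mul_le_mul_of_nonneg_right (by linarith) (by positivity)
    _ = Real.log X ^ (2 * l + 2) * K := mul_comm _ _

lemma sum_intervals (g : ℝ → ℝ) (hg0 : ∀ t, 0 ≤ g t) (hgi : Integrable g) (S : Finset ℤ) :
    ∑ k ∈ S, ∫ t in (k : ℝ)..(k + 1), g t ≤ ∫ t, g t := by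
  have h1 : ∀ k ∈ S, ∫ t in (k : ℝ)..(k + 1), g t = ∫ t in Set.Ioc (k : ℝ) (k + 1), g t :=
    fun k _ => intervalIntegral.integral_of_le (by linarith)
  rw [Finset.sum_congr rfl h1, ← integral_biUnion_finset S (fun k _ => measurableSet_Ioc)
    ((Set.pairwise_disjoint_Ioc_intCast ℝ).set_pairwise _) (fun k _ => hgi.integrableOn)]
  exact setIntegral_le_integral hgi (Eventually.of_forall hg0)

lemma integrable_gauss (E : ℝ → ℂ) (hE : Continuous E) (B : ℝ) (hB : ∀ t, ‖E t‖ ≤ B) (X : ℝ)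
    (hX : 0 < X) : Integrable (fun t : ℝ => ‖E t‖ ^ 2 * Real.exp (-(t / X) ^ 2)) := by
  have h1 : Integrable (fun t : ℝ => B ^ 2 * Real.exp (-(1 / X ^ 2) * t ^ 2)) :=
    (integrable_exp_neg_mul_sq (by positivity)).const_mul _
  refine h1.mono' ?_ (Eventually.of_forall (fun t => ?_))
  · exact Continuous.aestronglyMeasurable (by fun_prop)
  · have h2 : -(t / X) ^ 2 = -(1 / X ^ 2) * t ^ 2 := by ring
    rw [Real.norm_eq_abs, abs_of_nonneg (by positivity), h2]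
    exact mul_le_mul_of_nonneg_right (pow_le_pow_left₀ (norm_nonneg _) (hB t) 2)
      (Real.exp_pos _).le

lemma E_bound (E : ℝ → ℂ) (hE : Continuous E) (B : ℝ) (hB : ∀ t, ‖E t‖ ≤ B) (X : ℝ)
    (hX : 1 ≤ X) (S : Finset ℤ) (hS : ∀ k ∈ S, |(k : ℝ)| ≤ X) :
    ∑ k ∈ S, ∫ t in (k : ℝ)..(k + 1), ‖E t‖ ^ 2 ≤
      Real.exp 4 * ∫ t : ℝ, ‖E t‖ ^ 2 * Real.exp (-(t / X) ^ 2) := by
  have hX0 : 0 < X := by linarith
  have hi := (integrable_gauss E hE B hB X hX0).const_mul (Real.exp 4)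
  have h1 := sum_intervals _ (fun t => by positivity) hi S
  rw [integral_const_mul] at h1
  refine le_trans (Finset.sum_le_sum (fun k hk => ?_)) h1
  refine intervalIntegral.integral_mono_on (by linarith)
    (Continuous.intervalIntegrable (by fun_prop) _ _) (Continuous.intervalIntegrable (by fun_prop) _ _)
    (fun t ht => ?_)
  have h2 : (t / X) ^ 2 ≤ 4 := by
    have h3 := hS k hk
    rw [Set.mem_Icc] at ht
    rw [abs_le] at h3
    have h4 : |t / X| ≤ 2 := by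
      rw [abs_div, abs_of_pos hX0, div_le_iff₀ hX0, abs_le]
      constructor <;> linarith [h3.1, h3.2, ht.1, ht.2]
    rw [← sq_abs]
    nlinarith [abs_nonneg (t / X)]
  have h3 : Real.exp (-4) ≤ Real.exp (-(t / X) ^ 2) := Real.exp_le_exp.mpr (by linarith)
  have h4 : Real.exp 4 * Real.exp (-4) = 1 := by
    rw [← Real.exp_add]; simp
  calc ‖E t‖ ^ 2 = ‖E t‖ ^ 2 * (Real.exp 4 * Real.exp (-4)) := by rw [h4, mul_one]
    _ ≤ ‖E t‖ ^ 2 * (Real.exp 4 * Real.exp (-(t / X) ^ 2)) := by gcongr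
    _ = Real.exp 4 * (‖E t‖ ^ 2 * Real.exp (-(t / X) ^ 2)) := by ring

lemma cs_bound (A : Finset ℕ) (hA : ∀ v ∈ A, 0 < v) (Q R : ℕ → ℂ) (q r : ℕ → ℝ)
    (hQ : ∀ v ∈ A, ‖Q v‖ ≤ q v) (hR : ∀ v ∈ A, ‖R v‖ ≤ r v) :
    ‖∑ v ∈ A, Q v * R v‖ ^ 2 ≤ (∑ v ∈ A, (1 : ℝ) / v) * ∑ v ∈ A, (v : ℝ) * (q v ^ 2 * r v ^ 2) := by
  have h1 : ‖∑ v ∈ A, Q v * R v‖ ≤ ∑ v ∈ A, q v * r v := by
    refine (norm_sum_le _ _).trans (Finset.sum_le_sum (fun v hv => ?_))
    rw [norm_mul]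
    exact mul_le_mul (hQ v hv) (hR v hv) (norm_nonneg _) ((norm_nonneg _).trans (hQ v hv))
  refine (pow_le_pow_left₀ (norm_nonneg _) h1 2).trans ?_
  refine Finset.sum_sq_le_sum_mul_sum_of_sq_le_mul A (fun v _ => by positivity)
    (fun v _ => by positivity) (fun v hv => le_of_eq ?_)
  have : (v : ℝ) ≠ 0 := by
    have := hA v hv
    positivity
  field_simp

end Pool.Agent.H14.MR
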