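import Mathlib
import Pool.Agent.H14.MR.FSInt

/-!
Module [FS] (final stage) of project T1 on `MP_c59857_nt`.
-/

set_option autoImplicit false

open Finset Filter MeasureTheory

namespace Pool.Agent.H14.MR

open Pool.Agent.H24.MR

theorem fs (hME : StatementME) (hTKD : StatementTKD) (hLV : StatementLV) (hHM : StatementHM)
    (hPH : StatementPH) (hSB : StatementSB) : StatementFS := by
  intro W b ε hW hb hε
  obtain ⟨C, c, hC, hc, hME⟩ := hME
  obtain ⟨x₀, hx₀⟩ := hME W hW
  obtain ⟨CT, hCT, hTKD⟩ := hTKD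
  obtain ⟨CL, hCL, hLV⟩ := hLV
  obtain ⟨CH, XH, hCH, hHM⟩ := hHM
  have hφ : (0 : ℝ) < Nat.totient W := by exact_mod_cast Nat.totient_pos.mpr hW
  set e4 : ℝ := Real.exp 4 with he4
  have he4pos : 0 < e4 := Real.exp_pos 4
  set D : ℝ := max 2 (8 * e4 * CT / ε) with hD
  have hD2 : 2 ≤ D := le_max_left _ _
  have hD3 : 8 * e4 * CT / ε ≤ D := le_max_right _ _
  obtain ⟨J, hJ⟩ := exists_nat_ge (D / (c / Nat.totient W))
  rw [div_le_iff₀ (by positivity)] at hJ
  obtain ⟨H, hH⟩ := exists_nat_ge D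
  have hH2 : 2 ≤ H := by exact_mod_cast hD2.trans hH
  have hHpos : (0 : ℝ) < H := by linarith
  have hCpos : 0 < C := by omega
  have hCJ : 0 < C ^ J := by positivity
  set n : ℕ := C ^ J with hn
  have hnpos : (0 : ℝ) < n := by exact_mod_cast hCJ
  set c1 : ℝ := 1 / (25 * n) with hc1
  have hc1pos : 0 < c1 := by positivity
  set K : ℝ := 2 * n with hK
  have hKpos : 0 < K := by positivity
  set κ : ℝ := Real.sqrt (ε / (32 * K ^ 2 * CH)) with hκ
  have hκpos : 0 < κ := Real.sqrt_pos.mpr (by positivity)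
  have hκ2 : κ ^ 2 = ε / (32 * K ^ 2 * CH) := Real.sq_sqrt (by positivity)
  obtain ⟨CP, δ, XP, hCP, hδ, hPH⟩ := hPH (c1 / 2) (by positivity)
  set ε' : ℝ := Real.sqrt (ε / (32 * K ^ 2 * (CP * H ^ 2))) with hε'
  have hε'pos : 0 < ε' := Real.sqrt_pos.mpr (by positivity)
  have hε'2 : ε' ^ 2 = ε / (32 * K ^ 2 * (CP * H ^ 2)) := Real.sq_sqrt (by positivity)
  obtain ⟨XS, hSB⟩ := hSB W b ε' hW hb hε'pos
  set l : ℕ := 50 * n with hl
  have hl1 : 1 ≤ l := by
    rw [hl]; omega
  have hl2 : 2 / c1 ≤ l := by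
    rw [hl, hc1]
    push_cast
    have := hnpos.ne'
    field_simp
    norm_num
  set η : ℝ := 2 * κ ^ 2 * CH + 2 * CP * H ^ 2 * ε' ^ 2 with hη
  have hη2 : 2 * K ^ 2 * η = ε / 4 := by
    rw [hη, hκ2, hε'2]
    have := hKpos.ne'
    have := hHpos.ne'
    have := hCH.ne'
    have := hCP.ne'
    field_simp
    norm_num
  have hηpos : 0 ≤ η := by positivity
  -- the large parameter
  have hev : ∀ᶠ X : ℝ in atTop, ∀ S : Finset ℤ, (∀ k ∈ S, |(k : ℝ)| ≤ X) →
      (S.card : ℝ) ≤ X ^ (11 / 25 : ℝ) →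
      ∑ k ∈ S, ∫ t in (k : ℝ)..(k + 1), ‖FX W b X t‖ ^ 2 ≤ ε := by
    filter_upwards [eventually_ge_atTop 4, eventually_ge_atTop XH, eventually_ge_atTop XP,
      eventually_ge_atTop XS,
      Real.tendsto_log_atTop.eventually_ge_atTop (8 / c1),
      (tendsto_rpow_atTop hc1pos).eventually_ge_atTop x₀,
      (tendsto_rpow_atTop (show (0 : ℝ) < 24 / 25 by norm_num)).eventually_ge_atTop
        (8 * e4 * CT / ε),
      polylog_le (CL * (l.factorial : ℝ) ^ 2) H κ l (by positivity) (by positivity) hκpos hδ]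
      with X hX4 hXH hXP hXS hlog hXx hX24 hpoly S hS hScard
    have hX0 : 0 < X := by linarith
    have hX1 : 1 ≤ X := by linarith
    have hX2 : 8 ≤ c1 * Real.log X := by
      rw [div_le_iff₀ hc1pos] at hlog
      linarith
    have hlogpos : 0 < Real.log X := Real.log_pos (by linarith)
    have hH2' : (2 : ℝ) ≤ H := hD2.trans hH
    have hXcH : 2 ≤ c1 * H * Real.log X := by
      have : c1 * H * Real.log X = H * (c1 * Real.log X) := by ring
      rw [this]
      nlinarith
    set y : ℝ := X ^ c1 with hy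
    have hy1 : 1 ≤ y := Real.one_le_rpow hX1 hc1pos.le
    have hyn : y ^ n = X ^ (1 / 25 : ℝ) := by
      rw [hy, ← Real.rpow_natCast, ← Real.rpow_mul hX0.le, hc1]
      congr 1
      field_simp
    set P : Finset ℕ := (Finset.Ioc ⌊y⌋₊ ⌊y ^ n⌋₊).filter (fun p => p.Prime ∧ p ≡ 1 [MOD W])
      with hP
    set L : ℝ := ∑ p ∈ P, (1 : ℝ) / p with hL
    have hLD : D ≤ L := hJ.trans (mertens_iter C W (by omega) _ x₀ hx₀ y hXx hy1 J)
    have hL1 : 1 ≤ L := by linarith
    have hLpos : 0 < L := by linarith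
    have hXle : X ^ (1 / 25 : ℝ) ≤ X := by
      calc X ^ (1 / 25 : ℝ) ≤ X ^ (1 : ℝ) :=
            Real.rpow_le_rpow_of_exponent_le hX1 (by norm_num)
        _ = X := Real.rpow_one X
    have hPmem : ∀ p ∈ P, p.Prime ∧ p ≡ 1 [MOD W] ∧ y ≤ (p : ℝ) ∧ (p : ℝ) ≤ X ^ (1 / 25 : ℝ) := by
      intro p hp
      rw [hP, Finset.mem_filter, Finset.mem_Ioc] at hp
      refine ⟨hp.2.1, hp.2.2, (Nat.lt_of_floor_lt hp.1.1).le, ?_⟩
      rw [← hyn]
      exact (Nat.cast_le.mpr hp.1.2).trans (Nat.floor_le (by positivity))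
    obtain ⟨E, hEc, hEeq, hEint⟩ := hTKD W b H P L X X hW (by omega)
      (fun p hp => ⟨(hPmem p hp).1, (hPmem p hp).2.1, (hPmem p hp).2.2.2.trans hXle⟩) hL hL1 hX4
      le_rfl
    -- log of primes
    have hlogp : ∀ p ∈ P, c1 * Real.log X ≤ Real.log p ∧ Real.log p ≤ Real.log X / 25 := by
      intro p hp
      obtain ⟨hp1, -, hp2, hp3⟩ := hPmem p hp
      have hp0 : (0 : ℝ) < p := by exact_mod_cast hp1.pos
      constructor
      · have := Real.log_le_log (by positivity) hp2
        rwa [hy, Real.log_rpow hX0] at this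
      · have := Real.log_le_log hp0 hp3
        rw [Real.log_rpow hX0] at this
        linarith
    -- cells
    have hcell : ∀ v ∈ P.image (cell H), c1 * H * Real.log X ≤ v + 1 ∧
        (v : ℝ) ≤ H * Real.log X / 25 := by
      intro v hv
      rw [Finset.mem_image] at hv
      obtain ⟨p, hp, rfl⟩ := hv
      obtain ⟨h1, h2⟩ := hlogp p hp
      unfold cell
      constructor
      · refine le_trans ?_ (Nat.lt_floor_add_one _).le
        nlinarith
      · refine (Nat.floor_le (by
          have : 0 ≤ Real.log p := le_trans (by positivity) h1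
          positivity)).trans ?_
        nlinarith
    have hcellpos : ∀ v ∈ P.image (cell H), 0 < v := by
      intro v hv
      have h1 := (hcell v hv).1
      have : (1 : ℝ) ≤ v := by linarith
      have h2 : 1 ≤ v := by exact_mod_cast this
      omega
    -- the sum of 1/v
    have hsumv : ∑ v ∈ P.image (cell H), (1 : ℝ) / v ≤ K := by
      have h1 : ∀ v ∈ P.image (cell H), (1 : ℝ) / v ≤ 2 / (c1 * H * Real.log X) := by
        intro v hv
        have h1 := (hcell v hv).1
        have h2 : (0 : ℝ) < v := by exact_mod_cast hcellpos v hv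
        rw [div_le_div_iff₀ h2 (by positivity)]
        linarith
      have h2 : ((P.image (cell H)).card : ℝ) ≤ H * Real.log X / 25 := by
        have h3 : P.image (cell H) ⊆ Finset.Icc 1 ⌊H * Real.log X / 25⌋₊ := by
          intro v hv
          rw [Finset.mem_Icc]
          exact ⟨hcellpos v hv, Nat.le_floor (hcell v hv).2⟩
        have h4 := Finset.card_le_card h3
        rw [Nat.card_Icc, Nat.add_sub_cancel] at h4
        exact (Nat.cast_le.mpr h4).trans (Nat.floor_le (by positivity))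
      calc ∑ v ∈ P.image (cell H), (1 : ℝ) / v
          ≤ (P.image (cell H)).card • (2 / (c1 * H * Real.log X)) :=
            Finset.sum_le_card_nsmul _ _ _ h1
        _ = (P.image (cell H)).card * (2 / (c1 * H * Real.log X)) := nsmul_eq_mul _ _
        _ ≤ (H * Real.log X / 25) * (2 / (c1 * H * Real.log X)) := by gcongr
        _ = K := by
          rw [hK, hc1]
          field_simp
    -- boundedness of E
    have hEB : ∃ B : ℝ, ∀ t, ‖E t‖ ≤ B := by
      refine ⟨(∑ n ∈ Finset.Icc 1 ⌊X * Real.exp 1⌋₊,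
        ‖((fW W b n / n * tent (Real.log n - Real.log X) : ℝ) : ℂ)‖) +
        ‖(1 / L : ℂ)‖ * ∑ v ∈ P.image (cell H),
          (∑ p ∈ P.filter (fun p => cell H p = v), (1 : ℝ) / p) *
          (∑ n ∈ Finset.Icc 1 ⌊(X * Real.exp (-(v : ℝ) / H)) * Real.exp 1⌋₊,
            ‖((fW W b n / n * tent (Real.log n - Real.log (X * Real.exp (-(v : ℝ) / H))) : ℝ)
              : ℂ)‖), fun t => ?_⟩
      have h1 : E t = FX W b X t + (1 / L : ℂ) * ∑ v ∈ P.image (cell H),
        QP (P.filter (fun p => cell H p = v)) t * FX W b (X * Real.exp (-(v : ℝ) / H)) t := by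
        rw [hEeq t]; ring
      rw [h1]
      refine (norm_add_le _ _).trans (add_le_add (norm_FX_le _ _ _ _) ?_)
      rw [norm_mul]
      refine mul_le_mul_of_nonneg_left ?_ (norm_nonneg _)
      refine (norm_sum_le _ _).trans (Finset.sum_le_sum (fun v _ => ?_))
      rw [norm_mul]
      exact mul_le_mul (norm_QP_le _ _) (norm_FX_le _ _ _ _) (norm_nonneg _)
        (Finset.sum_nonneg (fun _ _ => by positivity))
    obtain ⟨B, hB⟩ := hEB
    have hE1 := E_bound E hEc B hB X hX1 S hS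
    -- the maxima
    have hmaxQ := fun v : ℕ => exists_max
      (fun t => ‖QP (P.filter (fun p => cell H p = v)) t‖) (continuous_QP _).norm
    have hmaxR := fun v : ℕ => exists_max
      (fun t => ‖FX W b (X * Real.exp (-(v : ℝ) / H)) t‖) (continuous_FX _ _ _).norm
    choose s hs using hmaxQ
    choose r hr using hmaxR
    set q' : ℕ → ℤ → ℝ := fun v k => ‖QP (P.filter (fun p => cell H p = v)) (s v k)‖ with hq'
    set r' : ℕ → ℤ → ℝ := fun v k => ‖FX W b (X * Real.exp (-(v : ℝ) / H)) (r v k)‖ with hr'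
    have hBv : ∀ v ∈ P.image (cell H), ∑ k ∈ S, q' v k ^ 2 * r' v k ^ 2 ≤ η / v ^ 2 := by
      intro v hv
      refine cell_total W b H l v CL CH CP δ κ ε' c1 X _ S hX4 hH2 hκpos hc1pos hl1 hl2 hCL
        hXcH hX2 hpoly (hcell v hv).1 (hcell v hv).2 ?_ hScard hS hLV (hHM X · hXH)
        (hPH X · hXP) (hSB X · · hXS) (s v) (r v) (fun k => (hs v k).1) (fun k => (hr v k).1)
      intro p hp
      rw [Finset.mem_filter] at hp
      obtain ⟨hp1, hp2⟩ := hp
      have hp0 : (0 : ℝ) < p := by exact_mod_cast (hPmem p hp1).1.pos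
      have hlp : 0 ≤ Real.log p := le_trans (by positivity) (hlogp p hp1).1
      refine ⟨(hPmem p hp1).1, ?_, ?_⟩
      · rw [← Real.le_log_iff_exp_le hp0, div_le_iff₀ hHpos, ← hp2]
        unfold cell
        refine (Nat.floor_le (by positivity)).trans (le_of_eq (mul_comm _ _))
      · rw [← Real.log_le_iff_le_exp hp0, ← hp2]
        unfold cell
        have h1 := (Nat.lt_floor_add_one ((H : ℝ) * Real.log p)).le
        have h2 : Real.log p ≤ (((⌊(H : ℝ) * Real.log p⌋₊ : ℕ) : ℝ) + 1) / H := by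
          rw [le_div_iff₀ hHpos]
          linarith
        refine h2.trans ?_
        rw [add_div]
        refine add_le_add le_rfl ?_
        rw [div_le_one hHpos]
        linarith
    -- pointwise bound
    have hpt : ∀ k ∈ S, ∫ t in (k : ℝ)..(k + 1), ‖FX W b X t‖ ^ 2 ≤
        2 * (K * ∑ v ∈ P.image (cell H), (v : ℝ) * (q' v k ^ 2 * r' v k ^ 2)) +
          2 * ∫ t in (k : ℝ)..(k + 1), ‖E t‖ ^ 2 := by
      intro k hk
      set Z : ℝ := K * ∑ v ∈ P.image (cell H), (v : ℝ) * (q' v k ^ 2 * r' v k ^ 2) with hZ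
      have h1 : ∫ t in (k : ℝ)..(k + 1), ‖FX W b X t‖ ^ 2 ≤
          ∫ t in (k : ℝ)..(k + 1), (2 * Z + 2 * ‖E t‖ ^ 2) := by
        have hcF := continuous_FX W b X
        refine intervalIntegral.integral_mono_on (by linarith)
          (Continuous.intervalIntegrable (by fun_prop) _ _)
          (Continuous.intervalIntegrable (by fun_prop) _ _) (fun t ht => ?_)
        set G : ℂ := ∑ v ∈ P.image (cell H),
          QP (P.filter (fun p => cell H p = v)) t * FX W b (X * Real.exp (-(v : ℝ) / H)) t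
          with hG
        have h2 : ‖G‖ ^ 2 ≤ Z := by
          refine (cs_bound _ hcellpos _ _ (fun v => q' v k) (fun v => r' v k)
            (fun v _ => (hs v k).2 t ht) (fun v _ => (hr v k).2 t ht)).trans ?_
          refine mul_le_mul_of_nonneg_right hsumv (Finset.sum_nonneg (fun _ _ => by positivity))
        have h3 : ‖-(1 / L : ℂ) * G‖ ^ 2 ≤ Z := by
          refine le_trans ?_ h2
          refine pow_le_pow_left₀ (norm_nonneg _) ?_ 2
          rw [norm_mul, norm_neg]
          have : ‖(1 / L : ℂ)‖ ≤ 1 := by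
            rw [norm_div, norm_one, Complex.norm_real, Real.norm_eq_abs, abs_of_pos hLpos,
              div_le_one hLpos]
            exact hL1
          calc ‖(1 / L : ℂ)‖ * ‖G‖ ≤ 1 * ‖G‖ := by gcongr
            _ = ‖G‖ := one_mul _
        have h4 : ‖FX W b X t‖ ≤ ‖-(1 / L : ℂ) * G‖ + ‖E t‖ := by
          rw [hEeq t]
          exact norm_add_le _ _
        have h5 : ‖FX W b X t‖ ^ 2 ≤ (‖-(1 / L : ℂ) * G‖ + ‖E t‖) ^ 2 :=
          pow_le_pow_left₀ (norm_nonneg _) h4 2
        nlinarith [sq_nonneg (‖-(1 / L : ℂ) * G‖ - ‖E t‖)]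
      refine h1.trans (le_of_eq ?_)
      rw [intervalIntegral.integral_add (by simp)
        (Continuous.intervalIntegrable (by fun_prop) _ _), intervalIntegral.integral_const_mul]
      simp
    have hsum := Finset.sum_le_sum hpt
    rw [Finset.sum_add_distrib, ← Finset.mul_sum, ← Finset.mul_sum, ← Finset.mul_sum] at hsum
    have hfin1 : ∑ k ∈ S, ∑ v ∈ P.image (cell H), (v : ℝ) * (q' v k ^ 2 * r' v k ^ 2) ≤
        η * K := by
      rw [Finset.sum_comm]
      calc ∑ v ∈ P.image (cell H), ∑ k ∈ S, (v : ℝ) * (q' v k ^ 2 * r' v k ^ 2)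
          ≤ ∑ v ∈ P.image (cell H), η * (1 / v) := by
            refine Finset.sum_le_sum (fun v hv => ?_)
            rw [← Finset.mul_sum]
            have hv0 : (0 : ℝ) < v := by exact_mod_cast hcellpos v hv
            calc (v : ℝ) * ∑ k ∈ S, q' v k ^ 2 * r' v k ^ 2 ≤ v * (η / v ^ 2) :=
                  mul_le_mul_of_nonneg_left (hBv v hv) hv0.le
              _ = η * (1 / v) := by field_simp
        _ = η * ∑ v ∈ P.image (cell H), (1 : ℝ) / v := by rw [Finset.mul_sum]
        _ ≤ η * K := mul_le_mul_of_nonneg_left hsumv hηpos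
    have hPcard : (P.card : ℝ) ≤ X ^ (1 / 25 : ℝ) := by
      have h3 : P ⊆ Finset.Icc 1 ⌊X ^ (1 / 25 : ℝ)⌋₊ := by
        intro p hp
        rw [Finset.mem_Icc]
        exact ⟨(hPmem p hp).1.one_lt.le, Nat.le_floor (hPmem p hp).2.2.2⟩
      have h4 := Finset.card_le_card h3
      rw [Nat.card_Icc, Nat.add_sub_cancel] at h4
      exact (Nat.cast_le.mpr h4).trans (Nat.floor_le (by positivity))
    have hPX : (P.card : ℝ) / X ≤ ε / (8 * e4 * CT) := by
      have h1 : X ^ (1 / 25 : ℝ) * X ^ (24 / 25 : ℝ) = X := by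
        rw [← Real.rpow_add hX0]
        norm_num
      rw [div_le_iff₀ hε] at hX24
      rw [div_le_div_iff₀ hX0 (by positivity)]
      calc (P.card : ℝ) * (8 * e4 * CT) ≤ X ^ (1 / 25 : ℝ) * (8 * e4 * CT) := by gcongr
        _ ≤ X ^ (1 / 25 : ℝ) * (X ^ (24 / 25 : ℝ) * ε) := by gcongr
        _ = ε * X := by
          rw [← mul_assoc, h1, mul_comm]
    have hLX : 1 / L ≤ ε / (8 * e4 * CT) := by
      have h1 := hD3.trans hLD
      rw [div_le_iff₀ hε] at h1
      rw [div_le_div_iff₀ hLpos (by positivity)]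
      linarith
    have hHX : 1 / (H : ℝ) ^ 2 ≤ ε / (8 * e4 * CT) := by
      have h1 := hD3.trans hH
      rw [div_le_iff₀ hε] at h1
      rw [div_le_div_iff₀ (by positivity) (by positivity)]
      have h2 : 0 ≤ (ε * H) * (H - 1) := mul_nonneg (by positivity) (by linarith)
      have h3 : (H : ℝ) * ε ≤ ε * H ^ 2 := by linarith [h2, show (ε * H) * (H - 1) = ε * H ^ 2 - H * ε by ring]
      linarith
    have hE2 : ∑ k ∈ S, ∫ t in (k : ℝ)..(k + 1), ‖E t‖ ^ 2 ≤ 3 * ε / 8 := by
      refine hE1.trans ?_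
      calc e4 * ∫ t : ℝ, ‖E t‖ ^ 2 * Real.exp (-(t / X) ^ 2)
          ≤ e4 * (CT * (1 / L + 1 / (H : ℝ) ^ 2 + P.card / X)) := by gcongr
        _ ≤ e4 * (CT * (ε / (8 * e4 * CT) + ε / (8 * e4 * CT) + ε / (8 * e4 * CT))) := by
          gcongr
        _ = 3 * ε / 8 := by field_simp; ring
    have hfin2 : 2 * (K * (η * K)) = ε / 4 := by rw [← hη2]; ring
    have hfin3 : 2 * (K * ∑ k ∈ S, ∑ v ∈ P.image (cell H), (v : ℝ) * (q' v k ^ 2 * r' v k ^ 2)) ≤
        ε / 4 := by
      rw [← hfin2]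
      gcongr
    linarith
  obtain ⟨X₀, hX₀⟩ := eventually_atTop.mp hev
  exact ⟨X₀, hX₀⟩

end Pool.Agent.H14.MR
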